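import Pool.Agent.PCS.Stmts

open scoped Pointwise

namespace Pool.Agent.PCS.H73

variable {G : ℕ → Type} {X : ℕ → Type} [∀ n, Group (G n)] [∀ n, MulAction (G n) (X n)]
  {sec : ∀ n, G n → X n → G (n + 1)}

theorem IsSec.le {m : ℕ} {h : G m} {n : ℕ} {g : G n} (hs : IsSec sec h n g) : n ≤ m := by
  induction hs with
  | refl => exact le_rfl
  | step n g x _ ih => omega

theorem IsSec.snoc {m : ℕ} {h : G m} {n : ℕ} {g : G n} (hs : IsSec sec h n g) (y : X m) :
    IsSec sec (sec m h y) n g := by
  induction hs with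
  | refl => exact IsSec.step _ _ y IsSec.refl
  | step n g x _ ih => exact IsSec.step n g x ih

/-- iterated sections of a product -/
theorem IsSec.mul (hsec : ∀ n (g h : G n) (x : X n), sec n (g * h) x = sec n g (h • x) * sec n h x)
    {m : ℕ} {h : G m} {n : ℕ} {k : G n} (hs : IsSec sec h n k) :
    ∀ a b : G n, k = a * b → ∃ a' b' : G m, IsSec sec a' n a ∧ IsSec sec b' n b ∧ h = a' * b' := by
  induction hs with
  | refl => exact fun a b hab => ⟨a, b, IsSec.refl, IsSec.refl, hab⟩
  | step n g x _ ih =>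
    intro a b hab
    obtain ⟨a', b', h1, h2, h3⟩ := ih (sec n a (b • x)) (sec n b x) (by rw [hab, hsec])
    exact ⟨a', b', IsSec.step n a _ h1, IsSec.step n b x h2, h3⟩

/-- splitting an iterated section at an intermediate level -/
theorem IsSec.split {m : ℕ} {h : G m} {n : ℕ} {g : G n} (hs : IsSec sec h n g) :
    ∀ p, n ≤ p → p ≤ m → ∃ k : G p, IsSec sec k n g ∧ IsSec sec h p k := by
  induction hs with
  | refl =>
    intro p hp hp'
    have : p = m := le_antisymm hp' hp
    subst this
    exact ⟨h, IsSec.refl, IsSec.refl⟩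
  | step n g x hs ih =>
    intro p hp hp'
    rcases Nat.eq_or_lt_of_le hp with he | hlt
    · subst he
      exact ⟨g, IsSec.refl, IsSec.step n g x hs⟩
    · obtain ⟨k, h1, h2⟩ := ih p hlt hp'
      exact ⟨k, IsSec.step n g x h1, h2⟩

theorem IsSec.eq {n : ℕ} {h g : G n} (hs : IsSec sec h n g) : h = g := by
  cases hs with
  | refl => rfl
  | step _ _ x hs' =>
    have := IsSec.le hs'
    omega

theorem con : ConStmt := by
  intro G _ X _ sec A K hsec hA j
  induction j with
  | zero =>
    intro n g hg m h hm hs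
    have hm' : m = n := by omega
    subst hm'
    rw [pow_zero, pow_one] at hg
    rw [IsSec.eq hs]
    exact hg
  | succ j ih =>
    intro n g hg m h hm hs
    rw [pow_succ, mul_two, pow_add] at hg
    obtain ⟨a, ha, b, hb, rfl⟩ := Set.mem_mul.mp hg
    obtain ⟨k, hk1, hk2⟩ := IsSec.split hs (n + K * j) (by omega) (by
      rw [hm, Nat.mul_succ]
      omega)
    obtain ⟨a', b', h1, h2, h3⟩ := IsSec.mul hsec hk1 a b rfl
    apply hA (n + K * j) k _ m h (by rw [hm, Nat.mul_succ]; omega) hk2
    rw [h3]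
    exact Set.mul_mem_mul (ih n a ha _ a' rfl h1) (ih n b hb _ b' rfl h2)

end Pool.Agent.PCS.H73
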