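import Pool.Agent.PCS.Stmts

namespace Pool.Agent.PCS.H73

open Pool.Agent.H50.CIG

theorem root_good {Γ V : Type} [Group Γ] [MulAction Γ V] (hI : ItpStmt) (T : Tree Γ V)
    (hker : ({g : Γ | ∀ v : V, g • v = v}).Finite) : Good T (pure T.root : Ultrafilter V) 1 := by
  have hfix : ∀ g : Γ, g • T.root = T.root := fun g =>
    T.eq_root _ (by rw [T.lv_smul, T.lv_root])
  constructor
  · rw [Ultrafilter.coe_pure, Filter.eventually_pure]
    unfold N
    have h1 : MulAction.orbit Γ T.root = {T.root} := by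
      ext v
      constructor
      · rintro ⟨g, rfl⟩
        exact hfix g
      · intro hv
        rw [Set.mem_singleton_iff.mp hv]
        exact MulAction.mem_orbit_self _
    rw [h1, Set.ncard_singleton]
  · refine hker.subset ?_
    intro g hg v
    have h1 : ∀ᶠ v in ((pure T.root : Ultrafilter V) : Filter V), g ∈ KK T v := hg
    rw [Ultrafilter.coe_pure, Filter.eventually_pure] at h1
    refine h1 (T.lv v) v ?_
    apply T.eq_root
    rw [(hI Γ V T).2.1 (T.lv v) v]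
    exact Nat.sub_self _

theorem ext_ (hI : ItpStmt) (hC : CstStmt) : ExtStmt := by
  intro Γ V _ _ T S rk R K q M hS hM
  classical
  have hne : S.Nonempty := ⟨1, hS.one_mem⟩
  let P : ℕ → ℕ → ℕ → Prop := fun δ m σ => ∃ (U : Ultrafilter V) (n : ℕ), Good T U n ∧ M - n = m ∧
    (∀ᶠ v in (U : Filter V), del S rk v = δ) ∧ (∀ᶠ v in (U : Filter V), sig S rk v = σ)
  have hroot := root_good hI T hS.ker
  obtain ⟨δ1, σ1, -, h1, h2⟩ := hC Γ V T S rk R hS.rank hne _ _ hroot
  have ex1 : ∃ δ, ∃ m σ, P δ m σ := ⟨δ1, M - 1, σ1, _, _, hroot, rfl, h1, h2⟩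
  have hs1 := Nat.find_spec ex1
  have ex2 : ∃ m, ∃ σ, P (Nat.find ex1) m σ := hs1
  have hs2 := Nat.find_spec ex2
  have ex3 : ∃ σ, P (Nat.find ex1) (Nat.find ex2) σ := hs2
  obtain ⟨U, n, hU, hn, hd, hs⟩ := Nat.find_spec ex3
  refine ⟨U, n, Nat.find ex1, Nat.find ex3, hU, hd, hs, ?_⟩
  intro U' n' δ' σ' hU' hd' hs'
  have hnM := hM U n hU
  have hnM' := hM U' n' hU'
  refine ⟨Nat.find_min' ex1 ⟨M - n', σ', U', n', hU', rfl, hd', hs'⟩, ?_, ?_⟩
  · intro he
    have h3 := Nat.find_min' ex2 (m := M - n') ⟨σ', U', n', hU', rfl, by rw [← he]; exact hd', hs'⟩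
    omega
  · intro he hn'
    refine Nat.find_min' ex3 ⟨U', n', hU', by rw [hn']; exact hn, by rw [← he]; exact hd', hs'⟩

end Pool.Agent.PCS.H73
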