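import Pool.Agent.PCS.Stmts

namespace Pool.Agent.PCS.H73

open Pool.Agent.H50.CIG

theorem int : IntStmt := by
  intro Γ _ hinf hci H hH ι hι P hP hn
  have := hinf
  intro hfin
  let L : Option ι → Subgroup Γ := fun o => o.elim H P
  obtain ⟨i, hi⟩ := exists_le_fc hci (fun _ : Option ι => H) L (fun _ => hH) (by
    intro i h hh k hk
    cases i with
    | none => exact H.mul_mem (H.mul_mem hh hk) (H.inv_mem hh)
    | some i => exact hn i h hh k hk) (by
    refine hfin.subset ?_
    intro g hg
    have h1 := fun i => (Subgroup.mem_iInf.mp hg) i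
    exact ⟨h1 none, fun i => h1 (some i)⟩)
  have hfc := fc_finite hci
  cases i with
  | none =>
    have h1 : (H : Set Γ).Finite := hfc.subset hi
    have := hH
    have h2 : Finite H := h1
    exact not_finite_iff_infinite.mpr hinf (finite_of_finiteIndex H)
  | some i => exact hP i (hfc.subset hi)

end Pool.Agent.PCS.H73
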